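import Pool.Agent.MP_885abb_co.H37.Defs

namespace Pool.Agent.MP_885abb_co.H37

open Finset

/-- positive semidefiniteness through double sums -/
lemma psd_iff {V : Type} [Fintype V] (X : Matrix V V ℝ) :
    X.PosSemidef ↔ (∀ u v, X u v = X v u) ∧ ∀ a : V → ℝ, 0 ≤ ∑ u, ∑ v, a u * X u v * a v := by
  rw [Matrix.posSemidef_iff_dotProduct_mulVec]
  refine and_congr ?_ ?_
  · constructor
    · intro h u v
      have := h.apply u v
      simpa using this.symm
    · intro h
      ext u v
      simpa using h v u
  · refine forall_congr' fun a => ?_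
    simp [dotProduct, Matrix.mulVec, Finset.mul_sum, mul_assoc]

def feas {V : Type} [Fintype V] (G : SimpleGraph V) : Set ℝ :=
  {s : ℝ | ∃ X : Matrix V V ℝ, X.PosSemidef ∧ (∀ u v, 0 ≤ X u v) ∧ X.trace = 1 ∧
    (∀ u v, G.Adj u v → X u v = 0) ∧ s = ∑ u, ∑ v, X u v}

lemma schrijver_eq {V : Type} [Fintype V] (G : SimpleGraph V) : schrijver G = sSup (feas G) := rfl

lemma psd_entry_le {V : Type} [Fintype V] {X : Matrix V V ℝ} (h : X.PosSemidef) (u v : V) :
    2 * X u v ≤ X u u + X v v := by
  classical
  obtain ⟨hs, hq⟩ := (psd_iff X).1 h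
  have := hq (fun w => (if w = u then 1 else 0) - (if w = v then 1 else 0))
  simp only [sub_mul, mul_sub, Finset.sum_sub_distrib, ite_mul, mul_ite, one_mul, mul_one,
    zero_mul, mul_zero, Finset.sum_ite_eq', Finset.mem_univ, if_true] at this
  have h2 := hs u v
  linarith

lemma feas_bdd {V : Type} [Fintype V] (G : SimpleGraph V) : BddAbove (feas G) := by
  refine ⟨Fintype.card V, ?_⟩
  rintro s ⟨X, hX, -, htr, -, rfl⟩
  have h1 : ∑ u, ∑ v, X u v ≤ ∑ u, ∑ v, (X u u + X v v) / 2 := by
    refine Finset.sum_le_sum fun u _ => Finset.sum_le_sum fun v _ => ?_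
    have := psd_entry_le hX u v
    linarith
  have h2 : ∑ u, X u u = 1 := htr
  refine h1.trans (le_of_eq ?_)
  simp only [add_div, Finset.sum_add_distrib, Finset.sum_const, Finset.card_univ, nsmul_eq_mul,
    ← Finset.sum_div, ← Finset.mul_sum, h2]
  ring

lemma le_schrijver {V : Type} [Fintype V] (G : SimpleGraph V) {s : ℝ} (hs : s ∈ feas G) :
    s ≤ schrijver G := le_csSup (feas_bdd G) hs

lemma schrijver_le {V : Type} [Fintype V] (G : SimpleGraph V) {b : ℝ} (hb : 0 ≤ b)
    (h : ∀ s ∈ feas G, s ≤ b) : schrijver G ≤ b := Real.sSup_le h hb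

lemma two_le_schrijver {V : Type} [Fintype V] (G : SimpleGraph V) {x y : V} (hxy : x ≠ y)
    (hna : ¬ G.Adj x y) : 2 ≤ schrijver G := by
  classical
  let a : V → ℝ := fun w => (if w = x then 1 else 0) + (if w = y then 1 else 0)
  have ha0 : ∀ w, 0 ≤ a w := fun w => by
    simp only [a]; split_ifs <;> norm_num
  have hsum : ∑ w, a w = 2 := by
    simp only [a, Finset.sum_add_distrib, Finset.sum_ite_eq', Finset.mem_univ, if_true]; norm_num
  have hsq : ∀ w, a w * a w = a w := fun w => by
    simp only [a]
    split_ifs with h1 h2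
    · exact absurd (h1.symm.trans h2) hxy
    all_goals norm_num
  refine le_schrijver G ⟨Matrix.of fun u v => a u * a v / 2, ?_, ?_, ?_, ?_, ?_⟩
  · rw [psd_iff]
    refine ⟨fun u v => by simp [mul_comm], fun b => ?_⟩
    have : ∑ u, ∑ v, b u * (Matrix.of fun u v => a u * a v / 2) u v * b v
        = (∑ u, b u * a u) ^ 2 / 2 := by
      rw [sq, Finset.sum_mul_sum, Finset.sum_div]
      refine Finset.sum_congr rfl fun u _ => ?_
      rw [Finset.sum_div]
      refine Finset.sum_congr rfl fun v _ => ?_
      simp only [Matrix.of_apply]; ring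
    rw [this]; positivity
  · intro u v
    have := ha0 u; have := ha0 v
    simp only [Matrix.of_apply]; positivity
  · simp only [Matrix.trace, Matrix.diag, Matrix.of_apply, hsq, ← Finset.sum_div, hsum]; norm_num
  · intro u v huv
    simp only [Matrix.of_apply, a]
    have h0 := huv.ne
    split_ifs with h1 h2 h3 h4 h5 h6 h7 h8 h9 <;> simp_all [G.adj_comm]
  · simp only [Matrix.of_apply, ← Finset.sum_div, ← Finset.mul_sum, ← Finset.sum_mul, hsum]
    norm_num

/-- A nonnegative symmetric kernel that is almost positive semidefinite and almost supported on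
non-adjacent pairs gives a lower bound for the Schrijver number. -/
lemma schrijver_ge_of_kernel {V : Type} [Fintype V] [Nonempty V] (G : SimpleGraph V)
    (R : V → V → ℝ) (good : V → V → Prop) [∀ u v, Decidable (good u v)] (δ β μ : ℝ)
    (hpos : 0 < δ + β) (hδ : 0 ≤ δ)
    (hRs : ∀ u v, R u v = R v u) (hR0 : ∀ u v, 0 ≤ R u v)
    (hpsd : ∀ a : V → ℝ, 0 ≤ δ * ∑ u, a u ^ 2 + ∑ u, ∑ v, a u * R u v * a v)
    (hgs : ∀ u v, good u v → good v u) (hgi : ∀ u, ¬ good u u)
    (hgG : ∀ u v, good u v → ¬ G.Adj u v)
    (hrow : ∀ u, ∑ v, R u v = μ) (hbad : ∀ u, ∑ v, (if good u v then 0 else R u v) ≤ β) :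
    μ / (δ + β) ≤ schrijver G := by
  classical
  have hN : (0 : ℝ) < Fintype.card V := by exact_mod_cast Fintype.card_pos
  set N : ℝ := (Fintype.card V : ℝ) with hNdef
  let E : V → V → ℝ := fun u v => if good u v then 0 else R u v
  have hEs : ∀ u v, E u v = E v u := fun u v => by
    simp only [E]
    by_cases h : good u v
    · rw [if_pos h, if_pos (hgs _ _ h)]
    · rw [if_neg h, if_neg (fun h' => h (hgs _ _ h')), hRs]
  have hE0 : ∀ u v, 0 ≤ E u v := fun u v => by
    simp only [E]; split_ifs
    · exact le_rfl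
    · exact hR0 u v
  let X : Matrix V V ℝ := Matrix.of fun u v =>
    ((if u = v then δ + β else 0) + (R u v - E u v)) / (N * (δ + β))
  have hD : 0 < N * (δ + β) := mul_pos hN hpos
  have hmem : (∑ u, ∑ v, X u v) ∈ feas G := by
    refine ⟨X, ?_, ?_, ?_, ?_, rfl⟩
    · rw [psd_iff]
      refine ⟨fun u v => ?_, fun a => ?_⟩
      · simp only [X, Matrix.of_apply, hRs u v, hEs u v, eq_comm]
      · have h1 : ∑ u, ∑ v, a u * X u v * a v =
            ((δ + β) * ∑ u, a u ^ 2 + ∑ u, ∑ v, a u * R u v * a v
              - ∑ u, ∑ v, a u * E u v * a v) / (N * (δ + β)) := by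
          rw [Finset.mul_sum, ← Finset.sum_add_distrib, ← Finset.sum_sub_distrib, Finset.sum_div]
          refine Finset.sum_congr rfl fun u _ => ?_
          have : (δ + β) * a u ^ 2 = ∑ v, a u * (if u = v then δ + β else 0) * a v := by
            simp only [mul_ite, ite_mul, mul_zero, zero_mul, Finset.sum_ite_eq, Finset.mem_univ,
              if_true]
            ring
          rw [this, ← Finset.sum_add_distrib, ← Finset.sum_sub_distrib, Finset.sum_div]
          refine Finset.sum_congr rfl fun v _ => ?_
          simp only [X, Matrix.of_apply]; ring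
        have h2 : ∑ u, ∑ v, a u * E u v * a v ≤ β * ∑ u, a u ^ 2 := by
          have h3 : ∑ u, ∑ v, a u * E u v * a v
              ≤ ∑ u, ∑ v, (E u v * a u ^ 2 / 2 + E v u * a v ^ 2 / 2) := by
            refine Finset.sum_le_sum fun u _ => Finset.sum_le_sum fun v _ => ?_
            rw [← hEs u v]
            have := mul_nonneg (hE0 u v) (sq_nonneg (a u - a v))
            nlinarith
          have h4 : ∑ u, ∑ v, (E u v * a u ^ 2 / 2 + E v u * a v ^ 2 / 2)
              = ∑ u, (∑ v, E u v) * a u ^ 2 := by
            simp only [Finset.sum_add_distrib]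
            rw [Finset.sum_comm (f := fun u v => E v u * a v ^ 2 / 2), ← Finset.sum_add_distrib]
            refine Finset.sum_congr rfl fun u _ => ?_
            rw [← Finset.sum_add_distrib, Finset.sum_mul]
            refine Finset.sum_congr rfl fun v _ => ?_
            ring
          refine h3.trans (h4.le.trans ?_)
          rw [Finset.mul_sum]
          exact Finset.sum_le_sum fun u _ => mul_le_mul_of_nonneg_right (hbad u) (sq_nonneg _)
        rw [h1]
        have := hpsd a
        apply div_nonneg _ hD.le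
        linarith
    · intro u v
      simp only [X, Matrix.of_apply, E]
      apply div_nonneg _ hD.le
      have := hR0 u v
      split_ifs <;> linarith
    · simp only [Matrix.trace, Matrix.diag, X, Matrix.of_apply, E, if_true, hgi, if_false,
        sub_self, add_zero, Finset.sum_const, Finset.card_univ, nsmul_eq_mul]
      rw [← hNdef]
      field_simp
    · intro u v huv
      simp only [X, Matrix.of_apply, E]
      rw [if_neg huv.ne, if_neg (fun h => hgG _ _ h huv)]
      simp
  refine le_trans ?_ (le_schrijver G hmem)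
  have h5 : ∀ u, μ / (N * (δ + β)) ≤ ∑ v, X u v := fun u => by
    simp only [X, Matrix.of_apply, ← Finset.sum_div, Finset.sum_add_distrib,
      Finset.sum_sub_distrib, Finset.sum_ite_eq, Finset.mem_univ, if_true, hrow u]
    apply div_le_div_of_nonneg_right _ hD.le
    have := hbad u
    simp only [E]
    linarith
  calc μ / (δ + β) = ∑ _u : V, μ / (N * (δ + β)) := by
        simp only [Finset.sum_const, Finset.card_univ, nsmul_eq_mul]
        rw [← hNdef]
        field_simp
    _ ≤ _ := Finset.sum_le_sum fun u _ => h5 u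

end Pool.Agent.MP_885abb_co.H37
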