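import Pool.Agent.MP_885abb_co.H37.Basic

namespace Pool.Agent.MP_885abb_co.H37

open Finset

def sg (b : Bool) : ℝ := if b then -1 else 1

lemma sg_sq (b : Bool) : sg b * sg b = 1 := by cases b <;> simp [sg]

lemma sg_mul_cases (b c : Bool) : sg b * sg c = 1 ∨ sg b * sg c = -1 := by
  cases b <;> cases c <;> simp [sg]

def ip {n : ℕ} (x y : Fin n → Bool) : ℝ := ∑ j, sg (x j) * sg (y j)

lemma ip_comm {n : ℕ} (x y : Fin n → Bool) : ip x y = ip y x := by
  simp only [ip, mul_comm]

lemma ip_self {n : ℕ} (x : Fin n → Bool) : ip x x = n := by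
  simp [ip, sg_sq]

def cube (n : ℕ) (ε : ℝ) : SimpleGraph (Fin n → Bool) where
  Adj x y := x ≠ y ∧ -ε * n < ip x y
  symm := ⟨fun x y h => ⟨h.1.symm, by rw [ip_comm]; exact h.2⟩⟩
  loopless := ⟨fun _ h => h.1 rfl⟩

lemma cube_upper (n : ℕ) (hn : 0 < n) (ε : ℝ) (hε : 0 < ε) :
    schrijver (cube n ε) ≤ 1 + 1 / ε := by
  classical
  refine schrijver_le _ (by positivity) ?_
  rintro s ⟨X, hX, h0, htr, hE, rfl⟩
  have hq := ((psd_iff X).1 hX).2
  have hn' : (0 : ℝ) < n := by exact_mod_cast hn
  have h1 : 0 ≤ ∑ u, ∑ v, X u v * ip u v := by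
    have : ∑ u, ∑ v, X u v * ip u v = ∑ j, ∑ u, ∑ v, sg (u j) * X u v * sg (v j) := by
      simp only [ip, Finset.mul_sum]
      rw [Finset.sum_comm]
      conv_rhs => rw [Finset.sum_comm]
      rw [Finset.sum_comm]
      refine Finset.sum_congr rfl fun u _ => ?_
      rw [Finset.sum_comm]
      refine Finset.sum_congr rfl fun v _ => Finset.sum_congr rfl fun j _ => by ring
    rw [this]
    exact Finset.sum_nonneg fun j _ => hq (fun u => sg (u j))
  have h2 : ∀ u v, X u v * ip u v ≤
      (if u = v then (1 + ε) * n * X u u else 0) - ε * n * X u v := by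
    intro u v
    split_ifs with h
    · subst h; rw [ip_self]; linarith
    · by_cases hadj : (cube n ε).Adj u v
      · rw [hE u v hadj]; simp
      · have : ip u v ≤ -ε * n := by
          by_contra hc
          exact hadj ⟨h, lt_of_not_ge hc⟩
        have := mul_le_mul_of_nonneg_left this (h0 u v)
        linarith
  have h3 : ∑ u, ∑ v, X u v * ip u v ≤ (1 + ε) * n - ε * n * ∑ u, ∑ v, X u v := by
    refine (Finset.sum_le_sum fun u _ => Finset.sum_le_sum fun v _ => h2 u v).trans (le_of_eq ?_)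
    have htr' : ∑ u, X u u = 1 := htr
    simp only [Finset.sum_sub_distrib, Finset.sum_ite_eq, Finset.mem_univ, if_true,
      ← Finset.mul_sum, htr', mul_one]
  have h4 : ε * ∑ u, ∑ v, X u v ≤ 1 + ε := by
    have : n * (ε * ∑ u, ∑ v, X u v) ≤ n * (1 + ε) := by linarith
    exact le_of_mul_le_mul_left this hn'
  rw [show 1 + 1 / ε = (1 + ε) / ε by field_simp; ring, le_div_iff₀ hε]
  linarith

lemma cube_two (n : ℕ) (hn : 0 < n) (ε : ℝ) (hε : ε ≤ 1) : 2 ≤ schrijver (cube n ε) := by
  refine two_le_schrijver _ (x := fun _ => true) (y := fun _ => false) ?_ ?_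
  · intro h
    have := congrFun h ⟨0, hn⟩
    simp at this
  · rintro ⟨-, h⟩
    have hn' : (0 : ℝ) < n := by exact_mod_cast hn
    simp [ip, sg] at h
    nlinarith

noncomputable def noise {n : ℕ} (s : ℝ) (x y : Fin n → Bool) : ℝ :=
  ∏ j, (1 + s * (sg (x j) * sg (y j))) / 2

def chi {n : ℕ} (S : Finset (Fin n)) (x : Fin n → Bool) : ℝ := ∏ j ∈ S, sg (x j)

lemma noise_comm {n : ℕ} (s : ℝ) (x y : Fin n → Bool) : noise s x y = noise s y x := by
  simp only [noise, mul_comm (sg (x _))]

lemma noise_nonneg {n : ℕ} {s : ℝ} (h1 : -1 ≤ s) (h2 : s ≤ 1) (x y : Fin n → Bool) :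
    0 ≤ noise s x y := by
  refine Finset.prod_nonneg fun j _ => ?_
  rcases sg_mul_cases (x j) (y j) with h | h <;> rw [h] <;> linarith

lemma noise_fourier {n : ℕ} (s : ℝ) (x y : Fin n → Bool) :
    noise s x y = ∑ S : Finset (Fin n), (1 / 2) ^ n * s ^ S.card * (chi S x * chi S y) := by
  have h1 : noise s x y = (1 / 2) ^ n * ∏ j, (1 + s * (sg (x j) * sg (y j))) := by
    simp only [noise, Finset.prod_div_distrib, Finset.prod_const, Finset.card_univ,
      Fintype.card_fin]
    rw [one_div, inv_pow]; ring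
  rw [h1, Finset.prod_one_add, Finset.powerset_univ, Finset.mul_sum]
  refine Finset.sum_congr rfl fun S _ => ?_
  simp only [chi, Finset.prod_mul_distrib, Finset.prod_const]
  ring

lemma noise_one {n : ℕ} (x y : Fin n → Bool) : noise 1 x y = if x = y then 1 else 0 := by
  split_ifs with h
  · subst h
    simp [noise, sg_sq]
  · obtain ⟨j, hj⟩ := Function.ne_iff.1 h
    refine Finset.prod_eq_zero (Finset.mem_univ j) ?_
    cases hx : x j <;> cases hy : y j <;> simp_all [sg]

lemma noise_moment {n : ℕ} (s : ℝ) (x : Fin n → Bool) (S : Finset (Fin n)) :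
    ∑ y, noise s x y * ∏ j ∈ S, (sg (x j) * sg (y j)) = s ^ S.card := by
  classical
  have h1 : ∀ y : Fin n → Bool, noise s x y * ∏ j ∈ S, (sg (x j) * sg (y j)) =
      ∏ j, ((1 + s * (sg (x j) * sg (y j))) / 2 * if j ∈ S then sg (x j) * sg (y j) else 1) := by
    intro y
    symm
    rw [Finset.prod_mul_distrib, Finset.prod_ite_mem, Finset.univ_inter, noise]
  simp only [h1]
  have h2 := Finset.prod_univ_sum (fun _ : Fin n => (Finset.univ : Finset Bool))
    (fun j b => (1 + s * (sg (x j) * sg b)) / 2 * if j ∈ S then sg (x j) * sg b else 1)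
  rw [Fintype.piFinset_univ] at h2
  rw [← h2]
  have h3 : ∀ j, ∑ b : Bool, ((1 + s * (sg (x j) * sg b)) / 2 *
      if j ∈ S then sg (x j) * sg b else 1) = if j ∈ S then s else 1 := by
    intro j
    split_ifs <;> cases x j <;> simp [sg] <;> ring
  simp only [h3]
  rw [Finset.prod_ite_mem, Finset.univ_inter, Finset.prod_const]

lemma noise_row {n : ℕ} (s : ℝ) (x : Fin n → Bool) : ∑ y, noise s x y = 1 := by
  simpa using noise_moment s x ∅

lemma noise_ip {n : ℕ} (s : ℝ) (x : Fin n → Bool) : ∑ y, noise s x y * ip x y = s * n := by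
  simp only [ip, Finset.mul_sum]
  rw [Finset.sum_comm]
  have : ∀ j, ∑ y, noise s x y * (sg (x j) * sg (y j)) = s := fun j => by
    simpa using noise_moment s x {j}
  simp [this, mul_comm]

lemma noise_ip_sq {n : ℕ} (s : ℝ) (x : Fin n → Bool) :
    ∑ y, noise s x y * ip x y ^ 2 ≤ n + s ^ 2 * n ^ 2 := by
  classical
  have h1 : ∀ i j, ∑ y, noise s x y * ((sg (x i) * sg (y i)) * (sg (x j) * sg (y j))) ≤
      (if i = j then 1 else 0) + s ^ 2 := by
    intro i j
    split_ifs with h
    · subst h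
      have : ∀ y : Fin n → Bool, (sg (x i) * sg (y i)) * (sg (x i) * sg (y i)) = 1 := fun y => by
        have h1 := sg_sq (x i); have h2 := sg_sq (y i)
        calc _ = (sg (x i) * sg (x i)) * (sg (y i) * sg (y i)) := by ring
          _ = 1 := by rw [h1, h2, mul_one]
      simp only [this, mul_one, noise_row]
      nlinarith [sq_nonneg s]
    · have := noise_moment s x {i, j}
      rw [Finset.card_pair h] at this
      simp only [Finset.prod_pair h] at this
      rw [this]; simp
  have h2 : ∑ y, noise s x y * ip x y ^ 2 =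
      ∑ i, ∑ j, ∑ y, noise s x y * ((sg (x i) * sg (y i)) * (sg (x j) * sg (y j))) := by
    have : ∀ y : Fin n → Bool, noise s x y * ip x y ^ 2 =
        ∑ i, ∑ j, noise s x y * ((sg (x i) * sg (y i)) * (sg (x j) * sg (y j))) := by
      intro y
      rw [ip, sq, Finset.sum_mul_sum, Finset.mul_sum]
      refine Finset.sum_congr rfl fun i _ => ?_
      rw [Finset.mul_sum]
    simp only [this]
    rw [Finset.sum_comm]
    refine Finset.sum_congr rfl fun i _ => ?_
    rw [Finset.sum_comm]
  rw [h2]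
  refine (Finset.sum_le_sum fun i _ => Finset.sum_le_sum fun j _ => h1 i j).trans (le_of_eq ?_)
  simp only [Finset.sum_add_distrib, Finset.sum_ite_eq, Finset.mem_univ, if_true,
    Finset.sum_const, Finset.card_univ, Fintype.card_fin, nsmul_eq_mul]
  ring

lemma noise_tail {n : ℕ} (hn : 0 < n) {ε s : ℝ} (hε : 0 < ε) (h1 : -1 ≤ s) (h2 : s ≤ -2 * ε)
    (x : Fin n → Bool) :
    ∑ y, noise s x y * (if ip x y ≤ -ε * n then 0 else 1) ≤ 1 / (n * ε ^ 2) := by
  have hn' : (0 : ℝ) < n := by exact_mod_cast hn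
  have hs1 : s ≤ 1 := by linarith
  have h3 : ∀ y, noise s x y * (if ip x y ≤ -ε * n then 0 else 1) ≤
      noise s x y * (ip x y - s * n) ^ 2 / (ε * n) ^ 2 := by
    intro y
    have h0 := noise_nonneg h1 hs1 x y
    split_ifs with h
    · rw [mul_zero]; positivity
    · rw [mul_div_assoc]
      refine mul_le_mul_of_nonneg_left ?_ h0
      rw [le_div_iff₀ (by positivity), one_mul]
      have h4 : ε * n ≤ ip x y - s * n := by
        have := lt_of_not_ge h
        nlinarith
      exact pow_le_pow_left₀ (by positivity) h4 2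
  refine (Finset.sum_le_sum fun y _ => h3 y).trans ?_
  rw [← Finset.sum_div]
  have h5 : ∑ y, noise s x y * (ip x y - s * n) ^ 2 ≤ n := by
    have : ∀ y, noise s x y * (ip x y - s * n) ^ 2 = noise s x y * ip x y ^ 2
        - 2 * s * n * (noise s x y * ip x y) + (s * n) ^ 2 * noise s x y := fun y => by ring
    simp only [this, Finset.sum_add_distrib, Finset.sum_sub_distrib, ← Finset.mul_sum, noise_ip,
      noise_row]
    have := noise_ip_sq s x
    nlinarith
  calc _ ≤ n / (ε * n) ^ 2 := div_le_div_of_nonneg_right h5 (by positivity)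
    _ = _ := by field_simp

end Pool.Agent.MP_885abb_co.H37
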