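import Mathlib

namespace Pool.Agent.MP_885abb_co.H37

/-- The Schrijver number of a finite graph: the supremum (a maximum when `V` is nonempty) of the sum
of all entries of `X`, over real positive semidefinite, entrywise nonnegative matrices `X` of
trace one vanishing on the edges. -/
noncomputable def schrijver {V : Type} [Fintype V] (G : SimpleGraph V) : ℝ :=
  sSup {s : ℝ | ∃ X : Matrix V V ℝ, X.PosSemidef ∧ (∀ u v, 0 ≤ X u v) ∧ X.trace = 1 ∧
    (∀ u v, G.Adj u v → X u v = 0) ∧ s = ∑ u, ∑ v, X u v}

/-- The strong product of `r` graphs: two distinct tuples are adjacent when in every coordinate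
they are equal or adjacent. -/
def strongProd {r : ℕ} {V : Fin r → Type} (G : ∀ i, SimpleGraph (V i)) :
    SimpleGraph (∀ i, V i) where
  Adj x y := x ≠ y ∧ ∀ i, x i = y i ∨ (G i).Adj (x i) (y i)
  symm := ⟨fun _ _ h => ⟨h.1.symm, fun i => (h.2 i).imp Eq.symm (G i).adj_symm⟩⟩
  loopless := ⟨fun _ h => h.1 rfl⟩

end Pool.Agent.MP_885abb_co.H37
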