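import Pool.Agent.MP_885abb_co.H37.Moments

namespace Pool.Agent.MP_885abb_co.H37

open Finset

noncomputable def ptW (k : ℕ) (p : Fin 3 × ℕ × ℕ) : ℝ :=
  ![wE k p.2.1 * wO k p.2.2, wO k p.2.1 * wE k p.2.2, wO k p.2.1 * wO k p.2.2] p.1

noncomputable def ptS (k m : ℕ) (p : Fin 3 × ℕ × ℕ) : Fin (m + 2) → ℝ :=
  Fin.cons (![-1, 1, -1] p.1 * atom k p.2.1)
    (Fin.cons (![1, -1, -1] p.1 * atom k p.2.2) (fun _ => 1))

def pts (k : ℕ) : Finset (Fin 3 × ℕ × ℕ) := univ ×ˢ (range (k + 1) ×ˢ range (k + 1))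

lemma pts_moment (k m : ℕ) (a : Fin (m + 2) → ℕ) :
    ∑ p ∈ pts k, ptW k p * ∏ i, ptS k m p i ^ a i =
      (-1) ^ a 0 * (mE k (a 0) * mO k (a 1)) + (-1) ^ a 1 * (mO k (a 0) * mE k (a 1))
      + (-1) ^ a 0 * (-1) ^ a 1 * (mO k (a 0) * mO k (a 1)) := by
  have h1 : ∀ p, ∏ i, ptS k m p i ^ a i =
      (![-1, 1, -1] p.1 * atom k p.2.1) ^ a 0 * (![1, -1, -1] p.1 * atom k p.2.2) ^ a 1 := by
    intro p
    rw [Fin.prod_univ_succ, Fin.prod_univ_succ]
    simp [ptS]
  simp only [h1]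
  rw [pts, Finset.sum_product, Fin.sum_univ_three]
  simp only [Finset.sum_product, mE, mO, Finset.sum_mul_sum]
  simp only [Finset.mul_sum]
  congr 1
  · congr 1
    · refine Finset.sum_congr rfl fun l _ => Finset.sum_congr rfl fun l' _ => ?_
      simp only [ptW, Matrix.cons_val_zero, mul_pow, one_pow]
      ring
    · refine Finset.sum_congr rfl fun l _ => Finset.sum_congr rfl fun l' _ => ?_
      simp only [ptW, Matrix.cons_val_one, Matrix.cons_val_zero, mul_pow, one_pow]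
      ring
  · refine Finset.sum_congr rfl fun l _ => Finset.sum_congr rfl fun l' _ => ?_
    simp only [ptW, Matrix.cons_val_two, Matrix.tail_cons, Matrix.head_cons, mul_pow, one_pow]
    ring

lemma pts_mass (k : ℕ) :
    ∑ p ∈ pts k, ptW k p = mE k 0 * mO k 0 + mO k 0 * mE k 0 + mO k 0 * mO k 0 := by
  simpa using pts_moment k 0 (fun _ => 0)

theorem big_product (k : ℕ) (hk : 2 ≤ k) (m : ℕ) : ∃ n : ℕ, ∃ ε : ℝ,
    2 ≤ schrijver (cube n ε) ∧ schrijver (cube n ε) ≤ (2 * k : ℝ) ^ (2 * k + 1) ∧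
    (2 * k : ℝ) ^ (k ^ 2) / (2 * k) ^ 2 ≤
      schrijver (strongProd fun _ : Fin (m + 2) => cube n ε) := by
  have hk1 : 1 ≤ k := by omega
  have hq : (4 : ℝ) ≤ 2 * k := by
    have : (2 : ℝ) ≤ k := by exact_mod_cast hk
    linarith
  have ha0 := atom_pos hk1 0
  have hw := wt_pos hk1 k
  obtain ⟨n, hn⟩ := exists_nat_gt (1 / (wt k k * (atom k 0 / 2) ^ 2))
  have hn0' : (0 : ℝ) < n := lt_trans (by positivity) hn
  have hn0 : 0 < n := by exact_mod_cast hn0'
  have hε : 0 < atom k 0 / 2 := by positivity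
  have hatom : atom k 0 = 1 / (2 * k : ℝ) ^ (2 * k) := by
    rw [atom, one_div, ← zpow_natCast, ← zpow_neg]
    congr 1
    push_cast; ring
  have hwt : wt k k = 1 / (2 * k : ℝ) ^ (k ^ 2) := by
    rw [wt, one_div, ← zpow_natCast, ← zpow_neg]
    congr 1
  refine ⟨n, atom k 0 / 2, cube_two n hn0 _ ?_, (cube_upper n hn0 _ hε).trans ?_, ?_⟩
  · have := atom_le_one hk1 (Nat.zero_le k)
    linarith
  · rw [hatom]
    have h1 : (1 : ℝ) ≤ (2 * k : ℝ) ^ (2 * k) := one_le_pow₀ (by linarith)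
    have h2 : 1 + 1 / (1 / (2 * k : ℝ) ^ (2 * k) / 2) = 1 + 2 * (2 * k : ℝ) ^ (2 * k) := by
      field_simp
    rw [h2, pow_succ]
    nlinarith
  · have hmem : ∀ p ∈ pts k, p.2.1 ≤ k ∧ p.2.2 ≤ k := by
      intro p hp
      simp only [pts, Finset.mem_product, Finset.mem_range] at hp
      omega
    have habs : ∀ p ∈ pts k, ∀ i, -1 ≤ ptS k m p i ∧ ptS k m p i ≤ 1 := by
      rintro ⟨t, l, l'⟩ hp i
      obtain ⟨h1, h2⟩ := hmem _ hp
      have b1 := atom_le_one hk1 h1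
      have b2 := atom_le_one hk1 h2
      have b3 := atom_pos hk1 l
      have b4 := atom_pos hk1 l'
      simp only at b1 b2
      refine Fin.cases ?_ (fun i => Fin.cases ?_ (fun i => ?_) i) i
      · fin_cases t <;> simp [ptS] <;> constructor <;> linarith
      · fin_cases t <;> simp [ptS] <;> constructor <;> linarith
      · simp [ptS]
    have key := prod_lower (r := m + 2) hn0 hε (pts k) (ptW k) (ptS k m) ?_
      (fun p hp i => (habs p hp i).1) (fun p hp i => (habs p hp i).2) ?_ (9 / 4 * wt k k)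
      (by positivity) (fun a => by rw [pts_moment]; exact moment_ge hk1 _ _)
    · refine le_trans ?_ key
      have hM := mass_ge hk1
      rw [← pts_mass] at hM
      set M := ∑ p ∈ pts k, ptW k p
      have hk0 : (0 : ℝ) < k := by linarith
      have hM0 : 0 < M := lt_of_lt_of_le (by positivity) hM
      have hη : 1 / (n * (atom k 0 / 2) ^ 2) ≤ wt k k := by
        rw [div_lt_iff₀ (by positivity)] at hn
        rw [div_le_iff₀ (by positivity)]
        nlinarith
      have hM1 : 1 ≤ M * k := by rwa [div_le_iff₀ hk0] at hM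
      have h3 : 9 / 4 * wt k k + M * (1 / (n * (atom k 0 / 2) ^ 2)) ≤
          M * (2 * k) ^ 2 * wt k k := by
        have h4 := mul_le_mul_of_nonneg_left hη hM0.le
        have h5 : 9 / 4 + M ≤ M * (2 * k) ^ 2 := by nlinarith
        have h6 := mul_le_mul_of_nonneg_right h5 hw.le
        linarith
      calc (2 * k : ℝ) ^ (k ^ 2) / (2 * k) ^ 2 = M / (M * (2 * k) ^ 2 * wt k k) := by
            rw [hwt]; field_simp
        _ ≤ _ := div_le_div_of_nonneg_left hM0.le (by positivity) h3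
    · rintro ⟨t, l, l'⟩ -
      have b1 := wE_nonneg hk1 l
      have b2 := wE_nonneg hk1 l'
      have b3 := wO_nonneg hk1 l
      have b4 := wO_nonneg hk1 l'
      fin_cases t <;> simp only [ptW] <;> simp <;> positivity
    · rintro ⟨t, l, l'⟩ -
      have b1 := atom_ge hk1 l
      have b2 := atom_ge hk1 l'
      fin_cases t
      · exact ⟨0, by simp [ptS]; linarith⟩
      · exact ⟨1, by simp [ptS]; linarith⟩
      · exact ⟨0, by simp [ptS]; linarith⟩

theorem no_constant (r : ℕ) (hr : 2 ≤ r) : ¬ ∃ C : ℝ,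
    ∀ (V : Fin r → Type) [∀ i, Fintype (V i)] (G : ∀ i, SimpleGraph (V i)),
      (∀ i, 2 ≤ schrijver (G i)) →
      schrijver (strongProd G) ≤ ∏ i, schrijver (G i) ^ C := by
  rintro ⟨C, hC⟩
  obtain ⟨m, rfl⟩ : ∃ m, r = m + 2 := ⟨r - 2, by omega⟩
  obtain ⟨c, hc⟩ := exists_nat_ge C
  set t : ℕ := c * (m + 2) with ht
  obtain ⟨n, ε, h2, hup, hlow⟩ := big_product (2 * t + 3) (by omega) m
  set k : ℕ := 2 * t + 3 with hk
  have hq : (1 : ℝ) < 2 * k := by
    have : (3 : ℝ) ≤ k := by exact_mod_cast (by omega : 3 ≤ k)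
    linarith
  have h := hC (fun _ => Fin n → Bool) (fun _ => cube n ε) (fun _ => h2)
  rw [Finset.prod_const, Finset.card_univ, Fintype.card_fin] at h
  have h3 : schrijver (cube n ε) ^ C ≤ ((2 * k : ℝ) ^ (2 * k + 1)) ^ c := by
    calc schrijver (cube n ε) ^ C ≤ schrijver (cube n ε) ^ (c : ℝ) :=
          Real.rpow_le_rpow_of_exponent_le (by linarith) hc
      _ = schrijver (cube n ε) ^ c := Real.rpow_natCast _ _
      _ ≤ _ := pow_le_pow_left₀ (by linarith) hup c
  have h4 : (schrijver (cube n ε) ^ C) ^ (m + 2) ≤ (2 * k : ℝ) ^ ((2 * k + 1) * t) := by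
    calc _ ≤ (((2 * k : ℝ) ^ (2 * k + 1)) ^ c) ^ (m + 2) :=
          pow_le_pow_left₀ (Real.rpow_nonneg (by linarith) _) h3 _
      _ = _ := by rw [← pow_mul, ← pow_mul, ht]
  have h5 := hlow.trans (h.trans h4)
  rw [div_le_iff₀ (by positivity), ← pow_add] at h5
  have h6 := (pow_le_pow_iff_right₀ hq).1 h5
  rw [hk] at h6
  nlinarith

end Pool.Agent.MP_885abb_co.H37
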