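import Pool.Agent.MP_885abb_co.H37.Prod

namespace Pool.Agent.MP_885abb_co.H37

open Finset

noncomputable def atom (k l : ℕ) : ℝ := (2 * k : ℝ) ^ (2 * (l : ℤ) - 2 * k)

noncomputable def wt (k l : ℕ) : ℝ := (2 * k : ℝ) ^ (-(l : ℤ) ^ 2)

noncomputable def wE (k l : ℕ) : ℝ := if Even l then wt k l else 0

noncomputable def wO (k l : ℕ) : ℝ := if Even l then 0 else wt k l

noncomputable def mE (k i : ℕ) : ℝ := ∑ l ∈ range (k + 1), wE k l * atom k l ^ i

noncomputable def mO (k i : ℕ) : ℝ := ∑ l ∈ range (k + 1), wO k l * atom k l ^ i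

section
variable {k : ℕ} (hk : 1 ≤ k)
include hk

lemma q_ge : (2 : ℝ) ≤ 2 * k := by
  have : (1 : ℝ) ≤ k := by exact_mod_cast hk
  linarith

lemma atom_pos (l : ℕ) : 0 < atom k l := zpow_pos (by have := q_ge hk; linarith) _

lemma wt_pos (l : ℕ) : 0 < wt k l := zpow_pos (by have := q_ge hk; linarith) _

lemma wE_nonneg (l : ℕ) : 0 ≤ wE k l := by
  unfold wE; split_ifs
  · exact (wt_pos hk l).le
  · exact le_rfl

lemma wO_nonneg (l : ℕ) : 0 ≤ wO k l := by
  unfold wO; split_ifs
  · exact le_rfl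
  · exact (wt_pos hk l).le

lemma atom_le_one {l : ℕ} (hl : l ≤ k) : atom k l ≤ 1 := by
  refine zpow_le_one_of_nonpos₀ (by have := q_ge hk; linarith) ?_
  have : (l : ℤ) ≤ k := by exact_mod_cast hl
  linarith

lemma atom_ge (l : ℕ) : atom k 0 ≤ atom k l := by
  refine zpow_le_zpow_right₀ (by have := q_ge hk; linarith) ?_
  have : (0 : ℤ) ≤ l := by positivity
  push_cast; linarith

lemma term_eq (l i : ℕ) :
    wt k l * atom k l ^ i = (2 * k : ℝ) ^ (-(l : ℤ) ^ 2 + (2 * (l : ℤ) - 2 * k) * i) := by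
  have h0 : (2 * k : ℝ) ≠ 0 := by have := q_ge hk; linarith
  rw [zpow_add₀ h0, wt, atom, zpow_mul, zpow_natCast]

lemma term_le {l i : ℕ} (h : l ≠ i) :
    wt k l * atom k l ^ i ≤ wt k i * atom k i ^ i / (2 * k) := by
  have hq := q_ge hk
  have h0 : (2 * k : ℝ) ≠ 0 := by linarith
  rw [term_eq hk, term_eq hk, div_eq_mul_inv, ← zpow_sub_one₀ h0]
  refine zpow_le_zpow_right₀ (by linarith) ?_
  have h1 : (l : ℤ) - i ≠ 0 := by
    intro h2; apply h; exact_mod_cast (sub_eq_zero.1 h2)
  have h2 : 0 < ((l : ℤ) - i) ^ 2 := by positivity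
  nlinarith

lemma others_le {i : ℕ} (hi : i ≤ k) :
    ∑ l ∈ (range (k + 1)).erase i, wt k l * atom k l ^ i ≤ wt k i * atom k i ^ i / 2 := by
  have hq := q_ge hk
  have hmem : i ∈ range (k + 1) := by simp; omega
  refine (Finset.sum_le_sum fun l hl => term_le hk (Finset.ne_of_mem_erase hl)).trans
    (le_of_eq ?_)
  rw [Finset.sum_const, Finset.card_erase_of_mem hmem, Finset.card_range, nsmul_eq_mul]
  have : (k : ℝ) ≠ 0 := by linarith
  simp only [Nat.add_sub_cancel]
  field_simp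

lemma mE_nonneg (i : ℕ) : 0 ≤ mE k i :=
  Finset.sum_nonneg fun l _ => mul_nonneg (wE_nonneg hk l) (pow_pos (atom_pos hk l) i).le

lemma mO_nonneg (i : ℕ) : 0 ≤ mO k i :=
  Finset.sum_nonneg fun l _ => mul_nonneg (wO_nonneg hk l) (pow_pos (atom_pos hk l) i).le

omit hk in
lemma mE_add_mO (i : ℕ) : mE k i + mO k i = ∑ l ∈ range (k + 1), wt k l * atom k l ^ i := by
  rw [mE, mO, ← Finset.sum_add_distrib]
  refine Finset.sum_congr rfl fun l _ => ?_
  unfold wE wO; split_ifs <;> ring

lemma tot_le {i : ℕ} (hi : i ≤ k) : mE k i + mO k i ≤ 3 / 2 * (wt k i * atom k i ^ i) := by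
  have hmem : i ∈ range (k + 1) := by simp; omega
  rw [mE_add_mO, ← Finset.add_sum_erase _ _ hmem]
  have := others_le hk hi
  linarith

lemma le_mE {i : ℕ} (hi : i ≤ k) (he : Even i) : wt k i * atom k i ^ i ≤ mE k i := by
  have hmem : i ∈ range (k + 1) := by simp; omega
  have := Finset.single_le_sum (f := fun l => wE k l * atom k l ^ i)
    (fun l _ => mul_nonneg (wE_nonneg hk l) (pow_pos (atom_pos hk l) i).le) hmem
  simpa only [mE, wE, if_pos he] using this

lemma le_mO {i : ℕ} (hi : i ≤ k) (he : ¬ Even i) : wt k i * atom k i ^ i ≤ mO k i := by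
  have hmem : i ∈ range (k + 1) := by simp; omega
  have := Finset.single_le_sum (f := fun l => wO k l * atom k l ^ i)
    (fun l _ => mul_nonneg (wO_nonneg hk l) (pow_pos (atom_pos hk l) i).le) hmem
  simpa only [mO, wO, if_neg he] using this

lemma even_dom {i : ℕ} (hi : i ≤ k) (he : Even i) : 2 * mO k i ≤ mE k i := by
  have := tot_le hk hi
  have := le_mE hk hi he
  linarith

lemma odd_dom {i : ℕ} (hi : i ≤ k) (he : ¬ Even i) : 2 * mE k i ≤ mO k i := by
  have := tot_le hk hi
  have := le_mO hk hi he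
  linarith

lemma tot_anti {i j : ℕ} (h : i ≤ j) : mE k j + mO k j ≤ mE k i + mO k i := by
  rw [mE_add_mO, mE_add_mO]
  refine Finset.sum_le_sum fun l hl => mul_le_mul_of_nonneg_left ?_ (wt_pos hk l).le
  exact pow_le_pow_of_le_one (atom_pos hk l).le
    (atom_le_one hk (by simp at hl; omega)) h

lemma tot_le_small {i : ℕ} (hi : k ≤ i) : mE k i + mO k i ≤ 3 / 2 * wt k k := by
  refine (tot_anti hk hi).trans ((tot_le hk le_rfl).trans (le_of_eq ?_))
  simp [atom]

lemma tot_le_all (i : ℕ) : mE k i + mO k i ≤ 3 / 2 := by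
  refine (tot_anti hk (Nat.zero_le i)).trans ((tot_le hk (Nat.zero_le k)).trans (le_of_eq ?_))
  simp [wt]

lemma moment_ge (a b : ℕ) : -(9 / 4 * wt k k) ≤
    (-1) ^ a * (mE k a * mO k b) + (-1) ^ b * (mO k a * mE k b)
      + (-1) ^ a * (-1) ^ b * (mO k a * mO k b) := by
  have hEa := mE_nonneg hk a
  have hEb := mE_nonneg hk b
  have hOa := mO_nonneg hk a
  have hOb := mO_nonneg hk b
  have hw := wt_pos hk k
  have h1 := mul_nonneg hEa hOb
  have h2 := mul_nonneg hOa hEb
  have h3 := mul_nonneg hOa hOb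
  have h4 := mul_nonneg hEa hEb
  by_cases hab : a ≤ k ∧ b ≤ k
  · obtain ⟨ha, hb⟩ := hab
    rcases Nat.even_or_odd a with pa | pa <;> rcases Nat.even_or_odd b with pb | pb <;>
      rw [pa.neg_one_pow, pb.neg_one_pow]
    · linarith
    · have ha' := even_dom hk ha pa
      have hb' := odd_dom hk hb (Nat.not_even_iff_odd.2 pb)
      nlinarith
    · have ha' := odd_dom hk ha (Nat.not_even_iff_odd.2 pa)
      have hb' := even_dom hk hb pb
      nlinarith
    · have ha' := odd_dom hk ha (Nat.not_even_iff_odd.2 pa)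
      have hb' := odd_dom hk hb (Nat.not_even_iff_odd.2 pb)
      nlinarith
  · have h5 : (mE k a + mO k a) * (mE k b + mO k b) ≤ 9 / 4 * wt k k := by
      rcases not_and_or.1 hab with h | h
      · have := mul_le_mul (tot_le_small hk (i := a) (by omega)) (tot_le_all hk b)
          (by linarith) (by linarith)
        linarith
      · have := mul_le_mul (tot_le_all hk a) (tot_le_small hk (i := b) (by omega))
          (by linarith) (by linarith)
        linarith
    rcases Nat.even_or_odd a with pa | pa <;> rcases Nat.even_or_odd b with pb | pb <;>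
      rw [pa.neg_one_pow, pb.neg_one_pow] <;> nlinarith

lemma mass_ge : 1 / (k : ℝ) ≤ mE k 0 * mO k 0 + mO k 0 * mE k 0 + mO k 0 * mO k 0 := by
  have h1 : 1 ≤ mE k 0 := by
    have := le_mE hk (Nat.zero_le k) Even.zero
    simpa [wt] using this
  have h2 : 1 / (2 * k : ℝ) ≤ mO k 0 := by
    have hmem : 1 ∈ range (k + 1) := by simp; omega
    have := Finset.single_le_sum (f := fun l => wO k l * atom k l ^ 0)
      (fun l _ => mul_nonneg (wO_nonneg hk l) (pow_pos (atom_pos hk l) 0).le) hmem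
    simpa [wO, wt, mO] using this
  have hq := q_ge hk
  have h3 : 0 < 1 / (2 * k : ℝ) := by positivity
  have h4 : 1 / (k : ℝ) = 2 * (1 / (2 * k : ℝ)) := by field_simp
  nlinarith

end

end Pool.Agent.MP_885abb_co.H37
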