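import Pool.Agent.MP_885abb_co.H37.Cube

namespace Pool.Agent.MP_885abb_co.H37

open Finset

def chis {r n : ℕ} (S : Fin r → Finset (Fin n)) (x : Fin r → Fin n → Bool) : ℝ :=
  ∏ i, chi (S i) (x i)

lemma prod_noise_fourier {r n : ℕ} (t : Fin r → ℝ) (x y : Fin r → Fin n → Bool) :
    ∏ i, noise (t i) (x i) (y i) = ∑ S : Fin r → Finset (Fin n),
      ((1 / 2) ^ n) ^ r * (∏ i, t i ^ (S i).card) * (chis S x * chis S y) := by
  classical
  simp only [noise_fourier]
  have h2 := Finset.prod_univ_sum (fun _ : Fin r => (Finset.univ : Finset (Finset (Fin n))))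
    (fun i S => (1 / 2 : ℝ) ^ n * t i ^ S.card * (chi S (x i) * chi S (y i)))
  rw [Fintype.piFinset_univ] at h2
  rw [h2]
  refine Finset.sum_congr rfl fun S _ => ?_
  simp only [chis, Finset.prod_mul_distrib, Finset.prod_const, Finset.card_univ, Fintype.card_fin]

lemma prod_noise_one {r n : ℕ} (x y : Fin r → Fin n → Bool) :
    ∏ i, noise 1 (x i) (y i) = if x = y then 1 else 0 := by
  split_ifs with h
  · subst h; simp [noise_one]
  · obtain ⟨i, hi⟩ := Function.ne_iff.1 h
    exact Finset.prod_eq_zero (Finset.mem_univ i) (by rw [noise_one, if_neg hi])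

lemma sum_prod_swap {r n : ℕ} (F : Fin r → (Fin n → Bool) → ℝ) :
    ∑ y : Fin r → Fin n → Bool, ∏ i, F i (y i) = ∏ i, ∑ w, F i w := by
  classical
  have h2 := Finset.prod_univ_sum (fun _ : Fin r => (Finset.univ : Finset (Fin n → Bool))) F
  rw [Fintype.piFinset_univ] at h2
  exact h2.symm

theorem prod_lower {r n : ℕ} (hn : 0 < n) {ε : ℝ} (hε : 0 < ε) {ι : Type} (P : Finset ι)
    (μ : ι → ℝ) (s : ι → Fin r → ℝ)
    (hμ : ∀ p ∈ P, 0 ≤ μ p) (hs1 : ∀ p ∈ P, ∀ i, -1 ≤ s p i) (hs2 : ∀ p ∈ P, ∀ i, s p i ≤ 1)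
    (hneg : ∀ p ∈ P, ∃ i, s p i ≤ -2 * ε) (δ : ℝ) (hδ : 0 < δ)
    (hmom : ∀ a : Fin r → ℕ, -δ ≤ ∑ p ∈ P, μ p * ∏ i, s p i ^ a i) :
    (∑ p ∈ P, μ p) / (δ + (∑ p ∈ P, μ p) * (1 / (n * ε ^ 2))) ≤
      schrijver (strongProd fun _ : Fin r => cube n ε) := by
  classical
  have hn' : (0 : ℝ) < n := by exact_mod_cast hn
  have hμ0 : 0 ≤ ∑ p ∈ P, μ p := Finset.sum_nonneg hμ
  refine schrijver_ge_of_kernel _
    (fun x y => ∑ p ∈ P, μ p * ∏ i, noise (s p i) (x i) (y i))
    (fun x y => ∃ i, ip (x i) (y i) ≤ -ε * n) δ _ _ (by positivity) hδ.le ?_ ?_ ?_ ?_ ?_ ?_ ?_ ?_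
  · intro u v
    simp only [noise_comm _ (u _)]
  · intro u v
    exact Finset.sum_nonneg fun p hp => mul_nonneg (hμ p hp)
      (Finset.prod_nonneg fun i _ => noise_nonneg (hs1 p hp i) (hs2 p hp i) _ _)
  · intro a
    have h1 : δ * ∑ u, a u ^ 2 = ∑ u, ∑ v, a u * (δ * ∏ i, noise 1 (u i) (v i)) * a v := by
      rw [Finset.mul_sum]
      refine Finset.sum_congr rfl fun u _ => ?_
      simp only [prod_noise_one, mul_ite, ite_mul, mul_zero, zero_mul, Finset.sum_ite_eq,
        Finset.mem_univ, if_true]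
      ring
    have h2 : ∀ u v : Fin r → Fin n → Bool,
        a u * (δ * ∏ i, noise 1 (u i) (v i)) * a v +
          a u * (∑ p ∈ P, μ p * ∏ i, noise (s p i) (u i) (v i)) * a v =
        ∑ S : Fin r → Finset (Fin n), ((1 / 2) ^ n) ^ r *
          (δ + ∑ p ∈ P, μ p * ∏ i, s p i ^ (S i).card) * ((a u * chis S u) * (a v * chis S v)) := by
      intro u v
      have h3 := prod_noise_fourier (fun _ => (1 : ℝ)) u v
      simp only [one_pow, Finset.prod_const_one, mul_one] at h3
      rw [h3]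
      simp only [prod_noise_fourier, Finset.mul_sum, Finset.sum_mul]
      rw [Finset.sum_comm (s := P), ← Finset.sum_add_distrib]
      refine Finset.sum_congr rfl fun S _ => ?_
      rw [mul_add, add_mul, Finset.mul_sum, Finset.sum_mul]
      congr 1
      · ring
      · refine Finset.sum_congr rfl fun p _ => by ring
    rw [h1, ← Finset.sum_add_distrib]
    simp only [← Finset.sum_add_distrib, h2]
    have h4 : ∑ u : Fin r → Fin n → Bool, ∑ v : Fin r → Fin n → Bool,
        ∑ S : Fin r → Finset (Fin n), ((1 / 2 : ℝ) ^ n) ^ r *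
          (δ + ∑ p ∈ P, μ p * ∏ i, s p i ^ (S i).card) * ((a u * chis S u) * (a v * chis S v)) =
        ∑ S : Fin r → Finset (Fin n), ((1 / 2 : ℝ) ^ n) ^ r *
          (δ + ∑ p ∈ P, μ p * ∏ i, s p i ^ (S i).card) * (∑ u, a u * chis S u) ^ 2 := by
      have : ∀ u : Fin r → Fin n → Bool, ∑ v : Fin r → Fin n → Bool,
        ∑ S : Fin r → Finset (Fin n), ((1 / 2 : ℝ) ^ n) ^ r *
          (δ + ∑ p ∈ P, μ p * ∏ i, s p i ^ (S i).card) * ((a u * chis S u) * (a v * chis S v)) =
        ∑ S : Fin r → Finset (Fin n), ∑ v : Fin r → Fin n → Bool, ((1 / 2 : ℝ) ^ n) ^ r *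
          (δ + ∑ p ∈ P, μ p * ∏ i, s p i ^ (S i).card) * ((a u * chis S u) * (a v * chis S v)) :=
        fun u => Finset.sum_comm
      simp only [this]
      rw [Finset.sum_comm]
      refine Finset.sum_congr rfl fun S _ => ?_
      rw [sq, Finset.sum_mul_sum, Finset.mul_sum]
      refine Finset.sum_congr rfl fun u _ => ?_
      rw [Finset.mul_sum]
    rw [h4]
    refine Finset.sum_nonneg fun S _ => mul_nonneg (mul_nonneg (by positivity) ?_) (sq_nonneg _)
    have := hmom fun i => (S i).card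
    linarith
  · rintro u v ⟨i, hi⟩
    exact ⟨i, by rwa [ip_comm]⟩
  · rintro u ⟨i, hi⟩
    rw [ip_self] at hi
    nlinarith
  · rintro u v ⟨i, hi⟩ ⟨-, h⟩
    rcases h i with h | h
    · rw [h, ip_self] at hi
      nlinarith
    · exact absurd h.2 (not_lt.2 hi)
  · intro u
    rw [Finset.sum_comm]
    refine Finset.sum_congr rfl fun p _ => ?_
    rw [← Finset.mul_sum, sum_prod_swap (fun i w => noise (s p i) (u i) w)]
    simp [noise_row]
  · intro u
    have h1 : ∀ v : Fin r → Fin n → Bool,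
        (if ∃ i, ip (u i) (v i) ≤ -ε * n then 0
          else ∑ p ∈ P, μ p * ∏ i, noise (s p i) (u i) (v i)) =
        ∑ p ∈ P, μ p * ((∏ i, noise (s p i) (u i) (v i)) *
          if ∃ i, ip (u i) (v i) ≤ -ε * n then 0 else 1) := by
      intro v
      split_ifs <;> simp
    simp only [h1]
    rw [Finset.sum_comm, Finset.sum_mul]
    refine Finset.sum_le_sum fun p hp => ?_
    rw [← Finset.mul_sum]
    refine mul_le_mul_of_nonneg_left ?_ (hμ p hp)
    obtain ⟨i0, hi0⟩ := hneg p hp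
    have h2 : ∀ v : Fin r → Fin n → Bool, ((∏ i, noise (s p i) (u i) (v i)) *
          if ∃ i, ip (u i) (v i) ≤ -ε * n then 0 else 1) ≤
        ∏ i, (noise (s p i) (u i) (v i) *
          if i = i0 then (if ip (u i) (v i) ≤ -ε * n then 0 else 1) else 1) := by
      intro v
      rw [Finset.prod_mul_distrib, Finset.prod_ite_eq', if_pos (Finset.mem_univ _)]
      refine mul_le_mul_of_nonneg_left ?_
        (Finset.prod_nonneg fun i _ => noise_nonneg (hs1 p hp i) (hs2 p hp i) _ _)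
      split_ifs with h3 h4 h4
      · exact le_rfl
      · exact zero_le_one
      · exact absurd ⟨i0, h4⟩ h3
      · exact le_rfl
    refine (Finset.sum_le_sum fun v _ => h2 v).trans ?_
    rw [sum_prod_swap (fun i w => noise (s p i) (u i) w *
          if i = i0 then (if ip (u i) w ≤ -ε * n then 0 else 1) else 1)]
    rw [← Finset.mul_prod_erase _ _ (Finset.mem_univ i0), Finset.prod_eq_one, mul_one]
    · simp only [if_true]
      exact noise_tail hn hε (hs1 p hp i0) hi0 _
    · intro i hi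
      simp only [if_neg (Finset.ne_of_mem_erase hi), mul_one, noise_row]

end Pool.Agent.MP_885abb_co.H37
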